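import Pool.Agent.Lib.Marsh96.SFinal

/-!
# Marshall's conjecture for maps of bounded boundary rotation, in particular for all maps whose
omitted set is convex
-/

set_option autoImplicit false

namespace Pool.Agent.Results.MP_8730d6_an.BoundedRotation

open Marsh96

theorem result :
    (∀ k : ℝ, 2 ≤ k → ∀ a : ℝ, 0 < a → a * k ^ 2 < 4 →
      ∃ C R₀ : ℝ, 1 < R₀ ∧ ∀ ψ h : ℂ → ℂ, LogBranch ψ h → RotationLE ψ k →
        ∀ R : ℝ, 1 < R → R < R₀ → marshallIntegral a R h ≤ C) ∧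
    ∀ ψ h : ℂ → ℂ, LogBranch ψ h → ConvexOmitted ψ → RotationLE ψ 2 :=
  ⟨fun k hk a ha0 hak => main_rotation k hk a ha0 hak,
    fun _ _ hb hc => rotation_of_convex hb hc⟩

end Pool.Agent.Results.MP_8730d6_an.BoundedRotation
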