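import Pool.Agent.Lib.Marsh96.OscE

/-!
# Marshall's conjecture under a bound for the local oscillation of the argument of the derivative
-/

set_option autoImplicit false

namespace Pool.Agent.Results.MP_8730d6_an.LocalOscillation

open Marsh96

theorem result (a β δ : ℝ) (ha : 0 < a) (hβ : 0 < β) (hδ : 0 < δ) (haβ : a * β ^ 2 < 1) :
    ∃ C R₀ : ℝ, 1 < R₀ ∧ ∀ ψ h : ℂ → ℂ, LogBranch ψ h → LocalOsc h β δ →
      ∀ R : ℝ, 1 < R → R < R₀ → marshallIntegral a R h ≤ C :=
  main_local a β δ ha hβ hδ haβ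

end Pool.Agent.Results.MP_8730d6_an.LocalOscillation
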